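import Pool.Agent.H72.KJ.Stmts
import Pool.Agent.H73.REM.Basic

/-!
# LEMMA J, row TYP: few grid points of a cube are near the zero set of a polynomial
-/

set_option autoImplicit false

namespace Pool.KJ.Typ

open Finset Real Pool.KS3 Pool.KST

/-- The weight of the dyadic sum. -/
noncomputable def wf (β θ a : ℝ) : ℝ := if a < θ then 1 else (θ / a) ^ β

lemma wf_nonneg {β θ a : ℝ} (hθ : 0 < θ) : 0 ≤ wf β θ a := by
  unfold wf
  split_ifs with h
  · exact zero_le_one
  · exact rpow_nonneg (div_nonneg hθ.le (by linarith only [hθ, h])) _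

lemma wf_le_one {β θ a : ℝ} (hβ : 0 < β) (hθ : 0 < θ) : wf β θ a ≤ 1 := by
  unfold wf
  split_ifs with h
  · exact le_rfl
  · have ha : 0 < a := by linarith only [hθ, h]
    exact rpow_le_one (div_nonneg hθ.le ha.le) ((div_le_one ha).mpr (by linarith only [h])) hβ.le

lemma wf_step {β θ a : ℝ} (hβ : 0 < β) (hθ : 0 < θ) :
    wf β θ a ≤ (1 / 2) ^ β * wf β (2 * θ) a + (if a < 2 * θ then 1 else 0) := by
  by_cases h : a < 2 * θ
  · rw [if_pos h]
    have h1 : wf β θ a ≤ 1 := wf_le_one hβ hθ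
    have h2 : 0 ≤ wf β (2 * θ) a := wf_nonneg (by linarith only [hθ])
    have h3 : 0 ≤ ((1 : ℝ) / 2) ^ β := by positivity
    have := mul_nonneg h3 h2
    linarith only [h1, this]
  · have h' : ¬ a < θ := by
      push Not at h ⊢
      linarith only [hθ, h]
    unfold wf
    rw [if_neg h, if_neg h', if_neg h, add_zero]
    have ha : 0 < a := by
      push Not at h
      linarith only [hθ, h]
    rw [← mul_rpow (by norm_num) (by positivity)]
    have : 1 / 2 * (2 * θ / a) = θ / a := by ring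
    rw [this]

/-- Dyadic summation. -/
lemma dyad {α β : ℝ} (hα : 0 < α) (hαβ : α < β) : ∃ B : ℝ, 1 ≤ B ∧
    ∀ (Y : Type) (s : Finset Y) (a : Y → ℝ) (A δ : ℝ), 0 ≤ A → 0 ≤ δ → (s.card : ℝ) ≤ A →
      (∀ τ : ℝ, 0 < τ → τ ≤ 1 → ((s.filter fun y => a y < τ).card : ℝ) ≤ A * (τ ^ α + δ)) →
      ∀ θ : ℝ, 0 < θ → θ ≤ 1 → ∑ y ∈ s, wf β θ (a y) ≤ B * A * (θ ^ α + δ) := by
  have hβ : 0 < β := hα.trans hαβ
  set r₁ : ℝ := 1 - (2 : ℝ) ^ (α - β) with hr₁
  set r₂ : ℝ := 1 - (1 / 2 : ℝ) ^ β with hr₂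
  have h1 : 0 < r₁ := by
    rw [hr₁, sub_pos]
    exact rpow_lt_one_of_one_lt_of_neg (by norm_num) (by linarith only [hαβ])
  have h2 : 0 < r₂ := by
    rw [hr₂, sub_pos]
    exact rpow_lt_one (by norm_num) (by norm_num) hβ
  have h2α : (1 : ℝ) ≤ 2 ^ α := one_le_rpow (by norm_num) hα.le
  set B : ℝ := 2 ^ α / r₁ + 1 / r₂ + 2 ^ α with hB
  have hB1 : 2 ^ α ≤ B := by
    have e1 : 0 ≤ (2 : ℝ) ^ α / r₁ := by positivity
    have e2 : 0 ≤ 1 / r₂ := by positivity
    linarith only [e1, e2]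
  have hBa : 2 ^ α ≤ B * r₁ := by
    have : (2 : ℝ) ^ α / r₁ ≤ B := by
      have e2 : 0 ≤ 1 / r₂ := by positivity
      linarith only [h2α, e2]
    calc (2 : ℝ) ^ α = 2 ^ α / r₁ * r₁ := by field_simp
      _ ≤ B * r₁ := mul_le_mul_of_nonneg_right this h1.le
  have hBb : 1 ≤ B * r₂ := by
    have : 1 / r₂ ≤ B := by
      have e2 : 0 ≤ (2 : ℝ) ^ α / r₁ := by positivity
      linarith only [h2α, e2]
    calc (1 : ℝ) = 1 / r₂ * r₂ := by field_simp
      _ ≤ B * r₂ := mul_le_mul_of_nonneg_right this h2.le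
  refine ⟨B, h2α.trans hB1, ?_⟩
  intro Y s a A δ hA hδ hc hN
  have key : ∀ m : ℕ, ∀ θ : ℝ, (1 / 2 : ℝ) ^ (m + 1) < θ → θ ≤ 1 →
      ∑ y ∈ s, wf β θ (a y) ≤ B * A * (θ ^ α + δ) := by
    intro m
    induction m with
    | zero =>
      intro θ hθ hθ1
      have hθ0 : 0 < θ := lt_trans (by norm_num) hθ
      rw [zero_add, pow_one] at hθ
      have e1 : ∑ y ∈ s, wf β θ (a y) ≤ A := by
        refine (Finset.sum_le_sum fun y _ => wf_le_one hβ hθ0).trans ?_
        rw [Finset.sum_const, nsmul_eq_mul, mul_one]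
        exact hc
      have e2 : (1 : ℝ) ≤ 2 ^ α * θ ^ α := by
        rw [← mul_rpow (by norm_num) hθ0.le]
        exact one_le_rpow (by linarith only [hθ]) hα.le
      have e3 : (1 : ℝ) ≤ B * (θ ^ α + δ) := by
        have e4 : 0 ≤ θ ^ α := by positivity
        have e5 : 0 ≤ B := by linarith only [h2α, hB1]
        have e6 := mul_le_mul_of_nonneg_right hB1 e4
        have e7 := mul_nonneg e5 hδ
        rw [mul_add]
        linarith only [e2, e6, e7]
      calc ∑ y ∈ s, wf β θ (a y) ≤ A * 1 := by rw [mul_one]; exact e1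
        _ ≤ A * (B * (θ ^ α + δ)) := mul_le_mul_of_nonneg_left e3 hA
        _ = B * A * (θ ^ α + δ) := by ring
    | succ m ih =>
      intro θ hθ hθ1
      by_cases hm : (1 / 2 : ℝ) ^ (m + 1) < θ
      · exact ih θ hm hθ1
      push Not at hm
      have hθ0 : 0 < θ := lt_trans (by positivity) hθ
      have h2θ : (1 / 2 : ℝ) ^ (m + 1) < 2 * θ := by
        rw [pow_succ] at hθ
        linarith only [hθ]
      have h2θ1 : 2 * θ ≤ 1 := by
        have : (1 / 2 : ℝ) ^ (m + 1) ≤ 1 / 2 := by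
          rw [pow_succ]
          have : (1 / 2 : ℝ) ^ m ≤ 1 := pow_le_one₀ (by norm_num) (by norm_num)
          linarith only [this]
        linarith only [hm, this]
      have e1 := ih (2 * θ) h2θ h2θ1
      have e2 := hN (2 * θ) (by linarith only [hθ0]) h2θ1
      have e3 : ∑ y ∈ s, wf β θ (a y) ≤ (1 / 2) ^ β * ∑ y ∈ s, wf β (2 * θ) (a y) +
          ((s.filter fun y => a y < 2 * θ).card : ℝ) := by
        refine (Finset.sum_le_sum fun y _ => wf_step hβ hθ0).trans (le_of_eq ?_)
        rw [Finset.sum_add_distrib, Finset.mul_sum]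
        congr 1
        rw [Finset.sum_boole]
      have h2b : (0 : ℝ) ≤ (1 / 2) ^ β := by positivity
      have e4 : ∑ y ∈ s, wf β θ (a y) ≤ (1 / 2) ^ β * (B * A * ((2 * θ) ^ α + δ)) +
          A * ((2 * θ) ^ α + δ) :=
        e3.trans (add_le_add (mul_le_mul_of_nonneg_left e1 h2b) e2)
      refine e4.trans ?_
      rw [mul_rpow (by norm_num) hθ0.le]
      have e5 : (1 / 2 : ℝ) ^ β * 2 ^ α = 1 - r₁ := by
        rw [hr₁, one_div, inv_rpow (by norm_num), ← rpow_neg (by norm_num), ← rpow_add (by norm_num)]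
        ring_nf
      have e6 : (1 / 2 : ℝ) ^ β = 1 - r₂ := by rw [hr₂]; ring
      have e7 : (1 / 2 : ℝ) ^ β * (B * A * (2 ^ α * θ ^ α + δ)) + A * (2 ^ α * θ ^ α + δ) =
          A * (((1 / 2 : ℝ) ^ β * 2 ^ α * B + 2 ^ α) * θ ^ α + ((1 / 2 : ℝ) ^ β * B + 1) * δ) := by
        ring
      rw [e7, e5, e6]
      have e8 : 0 ≤ θ ^ α := by positivity
      have e9 : ((1 - r₁) * B + 2 ^ α) * θ ^ α ≤ B * θ ^ α := by
        refine mul_le_mul_of_nonneg_right ?_ e8
        have : (1 - r₁) * B = B - B * r₁ := by ring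
        rw [this]
        linarith only [hBa]
      have e10 : ((1 - r₂) * B + 1) * δ ≤ B * δ := by
        refine mul_le_mul_of_nonneg_right ?_ hδ
        have : (1 - r₂) * B = B - B * r₂ := by ring
        rw [this]
        linarith only [hBb]
      calc A * (((1 - r₁) * B + 2 ^ α) * θ ^ α + ((1 - r₂) * B + 1) * δ)
          ≤ A * (B * θ ^ α + B * δ) := mul_le_mul_of_nonneg_left (add_le_add e9 e10) hA
        _ = B * A * (θ ^ α + δ) := by ring
  intro θ hθ hθ1
  obtain ⟨m, hm⟩ := exists_pow_lt_of_lt_one hθ (show (1 / 2 : ℝ) < 1 by norm_num)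
  refine key m θ (lt_of_le_of_lt ?_ hm) hθ1
  rw [pow_succ]
  have : 0 ≤ (1 / 2 : ℝ) ^ m := by positivity
  linarith only [this]

/-- One variable: a sublevel set on the grid. -/
lemma one_var (k : ℕ) : ∃ C : ℝ, 1 ≤ C ∧ ∀ (q : Polynomial ℝ) (g : ℕ) (E : Finset ℕ) (B m : ℝ)
    (j : ℕ), q.natDegree ≤ k → 1 ≤ g → j ≤ k → 0 < m → 0 < B → m ≤ |q.coeff j| →
    (∀ e ∈ E, e < g ∧ |q.eval ((e : ℝ) / g)| < B) →
    (E.card : ℝ) ≤ k + C * g * (B / m) ^ ((1 : ℝ) / k) := by
  obtain ⟨C₁, hC₁0, hC₁⟩ := Pool.KAL.TAY.coef_bound k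
  set C₂ : ℝ := C₁ * ((k + 1) * (2 * (k + 1)) ^ k) + 1 with hC₂
  have hC₂1 : 1 ≤ C₂ := by
    have : 0 ≤ C₁ * (((k : ℝ) + 1) * (2 * (k + 1)) ^ k) := by positivity
    linarith only [this]
  refine ⟨C₂, hC₂1, ?_⟩
  intro q g E B m j hq hg hj hm hB hqm hE
  have hg0 : (0 : ℝ) < g := by exact_mod_cast hg
  by_cases hc : E.card ≤ k
  · have h1 : (E.card : ℝ) ≤ k := by exact_mod_cast hc
    have h2 : 0 ≤ C₂ * g * (B / m) ^ ((1 : ℝ) / k) := by
      have : 0 ≤ (B / m) ^ ((1 : ℝ) / k) := rpow_nonneg (by positivity) _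
      have : 0 ≤ C₂ := by linarith only [hC₂1]
      positivity
    linarith only [h1, h2]
  push Not at hc
  have hEc0 : (0 : ℝ) < E.card := by
    have : 0 < E.card := by omega
    exact_mod_cast this
  -- the integer image
  set E' : Finset ℤ := E.map ⟨fun e : ℕ => (e : ℤ), Nat.cast_injective⟩ with hE'
  have hcard : E'.card = E.card := Finset.card_map _
  have hsup : ∀ y : ℝ, 0 ≤ y → y ≤ 1 →
      |q.eval y| ≤ (k + 1) * (2 * (k + 1) * 1 / (1 / g * E'.card)) ^ k * B := by
    intro y hy0 hy1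
    refine Pool.REM.grid q k hq E' (by rw [hcard]; omega) (by positivity) ?_ y ?_
    · intro e he
      rw [hE', Finset.mem_map] at he
      obtain ⟨e', he', rfl⟩ := he
      have := (hE e' he').2.le
      simpa [div_eq_mul_inv, mul_comm] using this
    · intro e he
      rw [hE', Finset.mem_map] at he
      obtain ⟨e', he', rfl⟩ := he
      have h1 := (hE e' he').1
      have h2 : (e' : ℝ) / g < 1 := by
        rw [div_lt_one hg0]
        exact_mod_cast h1
      have h3 : (0 : ℝ) ≤ (e' : ℝ) / g := by positivity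
      have e1 : (1 : ℝ) / g * (((⟨fun e : ℕ => (e : ℤ), Nat.cast_injective⟩ : ℕ ↪ ℤ) e' : ℤ) : ℝ) =
          (e' : ℝ) / g := by
        have e2 : ((⟨fun e : ℕ => (e : ℤ), Nat.cast_injective⟩ : ℕ ↪ ℤ) e' : ℤ) = (e' : ℤ) := rfl
        rw [e2, Int.cast_natCast]
        ring
      rw [e1, abs_le]
      constructor <;> linarith
  rw [hcard] at hsup
  have h1 := hC₁ q _ hq hsup j hj
  have h2 : m ≤ C₁ * ((k + 1) * (2 * (k + 1) * 1 / (1 / g * E.card)) ^ k * B) := hqm.trans h1
  -- rearrange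
  set ρ : ℝ := (E.card : ℝ) / g with hρ
  have hρ0 : 0 < ρ := by positivity
  have h3 : (2 * ((k : ℝ) + 1) * 1 / (1 / g * E.card)) = 2 * (k + 1) / ρ := by
    rw [hρ]
    field_simp
  rw [h3, div_pow] at h2
  have h4 : m * ρ ^ k ≤ C₂ * B := by
    have e1 : C₁ * ((k + 1) * ((2 * (k + 1)) ^ k / ρ ^ k) * B) * ρ ^ k =
        C₁ * (((k : ℝ) + 1) * (2 * (k + 1)) ^ k) * B := by
      field_simp
    calc m * ρ ^ k ≤ C₁ * ((k + 1) * ((2 * (k + 1)) ^ k / ρ ^ k) * B) * ρ ^ k :=
          mul_le_mul_of_nonneg_right h2 (by positivity)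
      _ = C₁ * (((k : ℝ) + 1) * (2 * (k + 1)) ^ k) * B := e1
      _ ≤ C₂ * B := mul_le_mul_of_nonneg_right (by rw [hC₂]; linarith only) hB.le
  rcases Nat.eq_zero_or_pos k with hk | hk
  · subst hk
    -- degree zero: `ρ ≤ 1`
    have h5 : (E.card : ℝ) ≤ g := by
      have : E ⊆ Finset.range g := fun e he => Finset.mem_range.mpr (hE e he).1
      have := Finset.card_le_card this
      rw [Finset.card_range] at this
      exact_mod_cast this
    have h6 : (B / m) ^ ((1 : ℝ) / ((0 : ℕ) : ℝ)) = 1 := by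
      rw [Nat.cast_zero, div_zero, rpow_zero]
    rw [h6, Nat.cast_zero, zero_add, mul_one]
    exact h5.trans (le_mul_of_one_le_left hg0.le hC₂1)
  · have h5 : ρ ^ k ≤ C₂ * (B / m) := by
      rw [← mul_div_assoc, le_div_iff₀ hm, mul_comm]
      exact h4
    have h6 : ρ ≤ (C₂ * (B / m)) ^ ((1 : ℝ) / k) := by
      have e1 : ρ = (ρ ^ k) ^ ((1 : ℝ) / k) := by
        rw [← rpow_natCast, ← rpow_mul hρ0.le, mul_one_div, div_self, rpow_one]
        have : k ≠ 0 := by omega
        exact_mod_cast this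
      conv_lhs => rw [e1]
      exact rpow_le_rpow (pow_nonneg hρ0.le k) h5 (by positivity)
    have h7 : (C₂ * (B / m)) ^ ((1 : ℝ) / k) ≤ C₂ * (B / m) ^ ((1 : ℝ) / k) := by
      rw [mul_rpow (by linarith only [hC₂1]) (by positivity)]
      refine mul_le_mul_of_nonneg_right ?_ (rpow_nonneg (by positivity) _)
      have hk1 : (1 : ℝ) / k ≤ 1 := by
        rw [div_le_one (by exact_mod_cast hk)]
        exact_mod_cast hk
      calc C₂ ^ ((1 : ℝ) / k) ≤ C₂ ^ (1 : ℝ) := rpow_le_rpow_of_exponent_le hC₂1 hk1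
        _ = C₂ := rpow_one _
    have h8 : (E.card : ℝ) = ρ * g := by
      rw [hρ]
      field_simp
    rw [h8]
    have h9 : ρ * g ≤ C₂ * (B / m) ^ ((1 : ℝ) / k) * g :=
      mul_le_mul_of_nonneg_right (h6.trans h7) hg0.le
    have h10 : (0 : ℝ) ≤ k := Nat.cast_nonneg _
    linarith only [h9, h9]

/-- The pure grid form. -/
lemma grid_slv (n k : ℕ) : ∃ C : ℝ, 1 ≤ C ∧ ∀ (P : MvPolynomial (Fin n) ℝ) (g : ℕ) (θ M : ℝ)
    (S : Finset (Fin n → ℕ)), P.totalDegree ≤ k → 1 ≤ g → 0 < θ → θ ≤ 1 → 0 < M →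
    (∃ y : Fin n → ℝ, (∀ i, 0 ≤ y i ∧ y i ≤ 1) ∧ M ≤ |MvPolynomial.eval y P|) →
    (∀ u ∈ S, (∀ i, u i < g) ∧ |MvPolynomial.eval (fun i => (u i : ℝ) / g) P| < θ * M) →
    (S.card : ℝ) ≤ C * (θ ^ ((1 : ℝ) / (k + 1)) + 1 / g) * g ^ n := by
  classical
  induction n with
  | zero =>
    refine ⟨1, le_rfl, ?_⟩
    intro P g θ M S hP hg hθ hθ1 hM ⟨y, hy, hyM⟩ hS
    have : S = ∅ := by
      rw [Finset.eq_empty_iff_forall_notMem]
      intro u hu
      have h1 := (hS u hu).2
      have h2 : (fun i => (u i : ℝ) / g) = y := Subsingleton.elim _ _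
      rw [h2] at h1
      have h3 : θ * M ≤ M := by nlinarith only [hyM, h1, hθ1, hM]
      linarith only [hyM, h1, h3]
    rw [this, Finset.card_empty, Nat.cast_zero]
    positivity
  | succ n ih =>
    obtain ⟨C₀, hC₀, ih⟩ := ih
    obtain ⟨C₁, hC₁, hone⟩ := one_var k
    rcases Nat.eq_zero_or_pos k with hk | hk
    · subst hk
      refine ⟨1, le_rfl, ?_⟩
      intro P g θ M S hP hg hθ hθ1 hM ⟨y, hy, hyM⟩ hS
      have hPC : P = MvPolynomial.C (MvPolynomial.coeff 0 P) := by
        apply MvPolynomial.totalDegree_eq_zero_iff_eq_C.mp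
        omega
      have : S = ∅ := by
        rw [Finset.eq_empty_iff_forall_notMem]
        intro u hu
        have h1 := (hS u hu).2
        rw [hPC, MvPolynomial.eval_C] at h1 hyM
        have h3 : θ * M ≤ M := by nlinarith only [hyM, h1, hθ1, hM]
        linarith only [hyM, h1, h3]
      rw [this, Finset.card_empty, Nat.cast_zero]
      positivity
    have hkr : (1 : ℝ) ≤ k := by exact_mod_cast hk
    set α : ℝ := 1 / ((k : ℝ) + 1) with hα
    have hα0 : 0 < α := by positivity
    have hαβ : α < 1 / (k : ℝ) := by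
      rw [hα]
      exact one_div_lt_one_div_of_lt (by linarith only [hkr]) (by linarith only)
    obtain ⟨B, hB1, hB⟩ := dyad hα0 hαβ
    refine ⟨k + C₁ * (k + 1) * (B * C₀), ?_, ?_⟩
    · have h1 : 1 ≤ B * C₀ := one_le_mul_of_one_le_of_one_le hB1 hC₀
      have h2 : 0 ≤ C₁ * ((k : ℝ) + 1) * (B * C₀) := by positivity
      linarith only [hkr, h2]
    intro P g θ M S hP hg hθ hθ1 hM ⟨z, hz, hzM⟩ hS
    have hg0 : (0 : ℝ) < g := by exact_mod_cast hg
    set Q := MvPolynomial.finSuccEquiv ℝ n P with hQ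
    have hQd : Q.natDegree ≤ k := by
      rw [hQ, MvPolynomial.natDegree_finSuccEquiv]
      exact (MvPolynomial.degreeOf_le_totalDegree _ _).trans hP
    have hcd : ∀ j, (Q.coeff j).totalDegree ≤ k := by
      intro j
      by_cases h : Q.coeff j = 0
      · rw [h, MvPolynomial.totalDegree_zero]
        exact Nat.zero_le _
      · have := MvPolynomial.totalDegree_coeff_finSuccEquiv_add_le P j h
        rw [← hQ] at this
        omega
    have hev : ∀ (x : ℝ) (y : Fin n → ℝ), MvPolynomial.eval (Fin.cons x y : Fin (n + 1) → ℝ) P =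
        (Q.map (MvPolynomial.eval y)).eval x := fun x y =>
      MvPolynomial.eval_eq_eval_mv_eval' y x P
    have hqd : ∀ y : Fin n → ℝ, (Q.map (MvPolynomial.eval y)).natDegree ≤ k := fun y =>
      Polynomial.natDegree_map_le.trans hQd
    -- the large coefficient
    obtain ⟨j, hj, hjM⟩ : ∃ j, j ≤ k ∧ M / (k + 1) ≤
        |MvPolynomial.eval (Fin.tail z) (Q.coeff j)| := by
      by_contra hcon
      push Not at hcon
      have h1 : |MvPolynomial.eval z P| < M := by
        have e1 : z = Fin.cons (z 0) (Fin.tail z) := (Fin.cons_self_tail z).symm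
        rw [e1, hev, Polynomial.eval_eq_sum_range' (n := k + 1) (by have := hqd (Fin.tail z); omega)]
        refine lt_of_le_of_lt (Finset.abs_sum_le_sum_abs _ _) ?_
        have e2 : ∑ i ∈ Finset.range (k + 1), |(Q.map (MvPolynomial.eval (Fin.tail z))).coeff i *
            z 0 ^ i| < ∑ i ∈ Finset.range (k + 1), M / (k + 1) := by
          refine Finset.sum_lt_sum_of_nonempty ⟨0, Finset.mem_range.mpr (by omega)⟩ ?_
          intro i hi
          rw [Polynomial.coeff_map, abs_mul]
          have h2 : |z 0 ^ i| ≤ 1 := by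
            rw [abs_pow]
            refine pow_le_one₀ (abs_nonneg _) ?_
            rw [abs_of_nonneg (hz 0).1]
            exact (hz 0).2
          refine lt_of_le_of_lt (mul_le_of_le_one_right (abs_nonneg _) h2) ?_
          exact hcon i (by rw [Finset.mem_range] at hi; omega)
        refine lt_of_lt_of_eq e2 ?_
        rw [Finset.sum_const, Finset.card_range, nsmul_eq_mul]
        push_cast
        field_simp
      linarith only [hzM, h1]
    set a : (Fin n → ℕ) → ℝ := fun y =>
      |MvPolynomial.eval (fun i => (y i : ℝ) / g) (Q.coeff j)| * (k + 1) / M with ha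
    set t : Finset (Fin n → ℕ) := Fintype.piFinset fun _ => Finset.range g with ht
    have htc : (t.card : ℝ) = (g : ℝ) ^ n := by
      rw [ht, Fintype.card_piFinset_const, Finset.card_range]
      push_cast
      rfl
    have hmaps : ∀ u ∈ S, Fin.tail u ∈ t := by
      intro u hu
      rw [ht, Fintype.mem_piFinset]
      intro i
      rw [Finset.mem_range]
      exact (hS u hu).1 i.succ
    have hsum := Finset.card_eq_sum_card_fiberwise (f := fun u : Fin (n + 1) → ℕ => Fin.tail u)
      (s := S) (t := t) hmaps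
    have hfib : ∀ y ∈ t, ((S.filter fun u => Fin.tail u = y).card : ℝ) ≤
        k + C₁ * (k + 1) * g * wf (1 / k) θ (a y) := by
      intro y hy
      set E : Finset ℕ := (S.filter fun u => Fin.tail u = y).image (fun u => u 0) with hE
      have hEc : E.card = (S.filter fun u => Fin.tail u = y).card := by
        refine Finset.card_image_of_injOn ?_
        intro u hu v hv huv
        have h1 := (Finset.mem_filter.mp hu).2
        have h2 := (Finset.mem_filter.mp hv).2
        have h3 : u 0 = v 0 := huv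
        rw [← Fin.cons_self_tail u, ← Fin.cons_self_tail v, h1, h2, h3]
      have hEm : ∀ e ∈ E, (Fin.cons e y : Fin (n + 1) → ℕ) ∈ S := by
        intro e he
        rw [hE, Finset.mem_image] at he
        obtain ⟨u, hu, rfl⟩ := he
        obtain ⟨h1, h2⟩ := Finset.mem_filter.mp hu
        rw [← h2, Fin.cons_self_tail]
        exact h1
      rw [← hEc]
      have hEg : (E.card : ℝ) ≤ g := by
        have : E ⊆ Finset.range g := fun e he => by
          have := (hS _ (hEm e he)).1 0
          rw [Fin.cons_zero] at this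
          exact Finset.mem_range.mpr this
        have := Finset.card_le_card this
        rw [Finset.card_range] at this
        exact_mod_cast this
      have hCk : (1 : ℝ) ≤ C₁ * (k + 1) := one_le_mul_of_one_le_of_one_le hC₁ (by linarith only [hkr])
      by_cases hay : a y < θ
      · unfold wf
        rw [if_pos hay, mul_one]
        have : (g : ℝ) ≤ C₁ * (k + 1) * g := le_mul_of_one_le_left hg0.le hCk
        linarith only [hkr, hEg, this]
      · unfold wf
        rw [if_neg hay]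
        push Not at hay
        have ha0 : 0 < a y := by linarith only [hθ, hay]
        set m : ℝ := |MvPolynomial.eval (fun i => (y i : ℝ) / g) (Q.coeff j)| with hm
        have ham : a y = m * (k + 1) / M := rfl
        have hm0 : 0 < m := by
          by_contra hcon
          have : m = 0 := le_antisymm (not_lt.mp hcon) (abs_nonneg _)
          rw [ham, this, zero_mul, zero_div] at ha0
          exact lt_irrefl _ ha0
        have h1 := hone (Q.map (MvPolynomial.eval fun i => (y i : ℝ) / g)) g E (θ * M) m j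
          (hqd _) hg hj hm0 (by positivity) (by rw [Polynomial.coeff_map]) (by
            intro e he
            have h2 := hS _ (hEm e he)
            have h3 := h2.1 0
            rw [Fin.cons_zero] at h3
            refine ⟨h3, ?_⟩
            have h4 := h2.2
            have e1 : (fun i => (((Fin.cons e y : Fin (n + 1) → ℕ) i : ℕ) : ℝ) / g) =
                (Fin.cons ((e : ℝ) / g) (fun i => (y i : ℝ) / g) : Fin (n + 1) → ℝ) := by
              funext i
              refine Fin.cases ?_ (fun i => ?_) i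
              · rw [Fin.cons_zero, Fin.cons_zero]
              · rw [Fin.cons_succ, Fin.cons_succ]
            rw [e1, hev] at h4
            exact h4)
        refine h1.trans ?_
        have h5 : θ * M / m = (k + 1) * (θ / a y) := by
          rw [ham]
          field_simp
        have h6 : ((k + 1) * (θ / a y)) ^ ((1 : ℝ) / k) ≤ (k + 1) * (θ / a y) ^ ((1 : ℝ) / k) := by
          rw [mul_rpow (by positivity) (by positivity)]
          refine mul_le_mul_of_nonneg_right ?_ (rpow_nonneg (by positivity) _)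
          have hk1 : (1 : ℝ) / k ≤ 1 := by
            rw [div_le_one (by linarith only [hkr])]
            exact hkr
          calc ((k : ℝ) + 1) ^ ((1 : ℝ) / k) ≤ ((k : ℝ) + 1) ^ (1 : ℝ) :=
                rpow_le_rpow_of_exponent_le (by linarith only [hkr, hα0, hαβ, hk1]) hk1
            _ = (k : ℝ) + 1 := rpow_one _
        rw [h5]
        have h7 : C₁ * g * ((k + 1) * (θ / a y)) ^ ((1 : ℝ) / k) ≤
            C₁ * g * ((k + 1) * (θ / a y) ^ ((1 : ℝ) / k)) :=
          mul_le_mul_of_nonneg_left h6 (by positivity)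
        linarith only [h7, h7]
    -- the summation
    have hN : ∀ τ : ℝ, 0 < τ → τ ≤ 1 → ((t.filter fun y => a y < τ).card : ℝ) ≤
        C₀ * (g : ℝ) ^ n * (τ ^ α + 1 / g) := by
      intro τ hτ hτ1
      have h1 := ih (Q.coeff j) g τ (M / (k + 1)) (t.filter fun y => a y < τ) (hcd j) hg hτ hτ1
        (by positivity) ⟨Fin.tail z, fun i => hz i.succ, hjM⟩ (by
          intro u hu
          obtain ⟨h2, h3⟩ := Finset.mem_filter.mp hu
          rw [ht, Fintype.mem_piFinset] at h2
          refine ⟨fun i => Finset.mem_range.mp (h2 i), ?_⟩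
          have h4 : |MvPolynomial.eval (fun i => (u i : ℝ) / g) (Q.coeff j)| * (k + 1) / M < τ := h3
          rw [div_lt_iff₀ hM] at h4
          rw [← mul_div_assoc, lt_div_iff₀ (by positivity)]
          exact h4)
      refine h1.trans (le_of_eq ?_)
      ring
    have hdy := hB (Fin n → ℕ) t a (C₀ * (g : ℝ) ^ n) (1 / g) (by positivity) (by positivity)
      (by rw [htc]; exact le_mul_of_one_le_left (by positivity) hC₀) hN θ hθ hθ1
    rw [hsum]
    push_cast
    refine (Finset.sum_le_sum hfib).trans ?_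
    rw [Finset.sum_add_distrib, Finset.sum_const, nsmul_eq_mul, htc, ← Finset.mul_sum]
    have h8 : C₁ * (k + 1) * g * ∑ y ∈ t, wf (1 / k) θ (a y) ≤
        C₁ * (k + 1) * g * (B * (C₀ * (g : ℝ) ^ n) * (θ ^ α + 1 / g)) :=
      mul_le_mul_of_nonneg_left hdy (by positivity)
    have h9 : (g : ℝ) ^ n * k ≤ k * (θ ^ α + 1 / g) * (g : ℝ) ^ (n + 1) := by
      have e1 : (g : ℝ) ^ n * k = k * (1 / g) * (g : ℝ) ^ (n + 1) := by
        rw [pow_succ]
        field_simp
      rw [e1]
      have e2 : 0 ≤ θ ^ α := by positivity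
      refine mul_le_mul_of_nonneg_right ?_ (by positivity)
      refine mul_le_mul_of_nonneg_left (by linarith only [e2]) (by positivity)
    calc (g : ℝ) ^ n * k + C₁ * (k + 1) * g * ∑ y ∈ t, wf (1 / k) θ (a y)
        ≤ k * (θ ^ α + 1 / g) * (g : ℝ) ^ (n + 1) +
          C₁ * (k + 1) * g * (B * (C₀ * (g : ℝ) ^ n) * (θ ^ α + 1 / g)) := add_le_add h9 h8
      _ = (k + C₁ * (k + 1) * (B * C₀)) * (θ ^ α + 1 / g) * (g : ℝ) ^ (n + 1) := by
        rw [pow_succ]
        ring

/-- **Row TYP.** -/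
theorem typ_thm : TYPStmt := by
  classical
  intro n k
  obtain ⟨C, hC, h⟩ := grid_slv n k
  refine ⟨C, hC, ?_⟩
  intro P L b κ θ S hP hb hθ hθ1 hS
  set g : ℕ := 2 ^ (L - b) with hg
  have hg1 : 1 ≤ g := Nat.one_le_two_pow
  have hgr : (g : ℝ) = 2 ^ (L - b) := by rw [hg]; push_cast; rfl
  have hg0 : (0 : ℝ) < g := by exact_mod_cast hg1
  have hL : (2 : ℝ) ^ L = 2 ^ b * 2 ^ (L - b) := by rw [← pow_add, Nat.add_sub_cancel' hb]
  set M : ℝ := cs (crb b κ) (1 / 2 ^ b) P with hM
  obtain ⟨y₀, hy₀, hy₀M⟩ := cs_attained (crb b κ) (1 / 2 ^ b) (by positivity) P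
  rcases Finset.eq_empty_or_nonempty S with hSe | ⟨u₀, hu₀⟩
  · rw [hSe, Finset.card_empty, Nat.cast_zero]
    positivity
  have hM0 : 0 < M := by
    have h1 := lt_of_le_of_lt (abs_nonneg _) (hS u₀ hu₀).2
    by_contra hcon
    push Not at hcon
    have := mul_nonpos_of_nonneg_of_nonpos hθ.le hcon
    linarith only [h1, this]
  set Q : MvPolynomial (Fin n) ℝ := shA P (fun _ => 1 / 2 ^ b) (crb b κ) with hQ
  have hQe : ∀ v : Fin n → ℝ, MvPolynomial.eval v Q =
      MvPolynomial.eval (fun i => crb b κ i + 1 / 2 ^ b * v i) P := fun v => eval_shA _ _ _ _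
  set S' : Finset (Fin n → ℕ) := S.image fun u i => u i % g with hS'
  have hdm : ∀ u ∈ S, ∀ i, u i = g * κ i + u i % g := by
    intro u hu i
    have h1 := (hS u hu).1 i
    conv_lhs => rw [← Nat.div_add_mod (u i) g]
    rw [hg, h1]
  have hcard : S'.card = S.card := by
    refine Finset.card_image_of_injOn ?_
    intro u hu v hv huv
    funext i
    have h1 : u i % g = v i % g := congrFun huv i
    rw [hdm u hu i, hdm v hv i, h1]
  rw [← hcard]
  have h1 := h Q g θ M S' ((Pool.KST.totalDegree_shA_le P _ _).trans hP) hg1 hθ hθ1 hM0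
    ⟨fun i => (y₀ i - crb b κ i) * 2 ^ b, ?_, ?_⟩ ?_
  · rw [hgr] at h1
    exact h1
  · intro i
    have h2 := hy₀ i
    constructor
    · exact mul_nonneg (by linarith only [h2, h2.1]) (by positivity)
    · have h3 : y₀ i - crb b κ i ≤ 1 / 2 ^ b := by linarith only [h2, h2.2]
      calc (y₀ i - crb b κ i) * 2 ^ b ≤ 1 / 2 ^ b * 2 ^ b :=
            mul_le_mul_of_nonneg_right h3 (by positivity)
        _ = 1 := by field_simp
  · rw [hQe]
    have e1 : (fun i => crb b κ i + 1 / 2 ^ b * ((y₀ i - crb b κ i) * 2 ^ b)) = y₀ := by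
      funext i
      field_simp
      ring
    rw [e1, hy₀M]
  · intro u' hu'
    rw [hS', Finset.mem_image] at hu'
    obtain ⟨u, hu, rfl⟩ := hu'
    refine ⟨fun i => Nat.mod_lt _ hg1, ?_⟩
    rw [hQe]
    have e1 : (fun i => crb b κ i + 1 / 2 ^ b * (((u i % g : ℕ) : ℝ) / g)) =
        fun i => (u i : ℝ) / 2 ^ L := by
      funext i
      have h2 : (u i : ℝ) = g * κ i + ((u i % g : ℕ) : ℝ) := by
        exact_mod_cast hdm u hu i
      rw [h2, hL, ← hgr]
      unfold crb
      field_simp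
    rw [e1]
    exact (hS u hu).2

end Pool.KJ.Typ
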